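import Pool.Agent.ExpPar.Refl

set_option autoImplicit false

/-!
# Real maximizers on central sections: the extensions of the even and of the odd part have
disjoint supports
-/

noncomputable section

open MeasureTheory Set Filter
open scoped ENNReal RealInnerProductSpace Topology

namespace Pool.Agent.ExpPar

open Pool.Agent.ExpMax

/-- strict convexity -/
lemma convex_ineq {p a b : ℝ} (hp : 2 < p) :
    2 * (a ^ 2 + b ^ 2) ^ (p / 2) ≤ |a + b| ^ p + |a - b| ^ p ∧
    (a * b ≠ 0 → 2 * (a ^ 2 + b ^ 2) ^ (p / 2) < |a + b| ^ p + |a - b| ^ p) := by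
  have h1 : ∀ x : ℝ, |x| ^ p = (x ^ 2) ^ (p / 2) := by
    intro x
    rw [← sq_abs, ← Real.rpow_natCast (|x|) 2, ← Real.rpow_mul (abs_nonneg x)]
    congr 1
    push_cast
    ring
  have h2 := strictConvexOn_rpow (show (1 : ℝ) < p / 2 by linarith)
  have h3 : (1 / 2 : ℝ) • (a + b) ^ 2 + (1 / 2 : ℝ) • (a - b) ^ 2 = a ^ 2 + b ^ 2 := by
    simp only [smul_eq_mul]
    ring
  rw [h1, h1]
  constructor
  · have h4 := h2.convexOn.2 (mem_Ici.2 (sq_nonneg (a + b)))
      (mem_Ici.2 (sq_nonneg (a - b))) (show (0 : ℝ) ≤ 1 / 2 by norm_num)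
      (show (0 : ℝ) ≤ 1 / 2 by norm_num) (by norm_num)
    rw [h3] at h4
    simp only [smul_eq_mul] at h4
    linarith
  · intro hab
    have hne : (a + b) ^ 2 ≠ (a - b) ^ 2 := by
      intro h5
      apply hab
      linarith
    have h4 := h2.2 (mem_Ici.2 (sq_nonneg (a + b))) (mem_Ici.2 (sq_nonneg (a - b))) hne
      (show (0 : ℝ) < 1 / 2 by norm_num) (show (0 : ℝ) < 1 / 2 by norm_num) (by norm_num)
    rw [h3] at h4
    simp only [smul_eq_mul] at h4
    linarith

/-- the phase -/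
def ph (α β γ : ℝ) {d : ℕ} (y ζ : Pt d) : ℝ := dot ζ y - dot (cen α β γ) y

/-- cosine part -/
def FA (α β γ : ℝ) {d : ℕ} (f : Pt d → ℝ) (y : Pt d) : ℝ :=
  ∫ ζ, f ζ * Real.cos (ph α β γ y ζ) ∂(sectionMeasure α β γ d)

/-- sine part -/
def FB (α β γ : ℝ) {d : ℕ} (f : Pt d → ℝ) (y : Pt d) : ℝ :=
  ∫ ζ, f ζ * Real.sin (ph α β γ y ζ) ∂(sectionMeasure α β γ d)

lemma cont_ph (α β γ : ℝ) {d : ℕ} (y : Pt d) : Continuous (fun ζ : Pt d => ph α β γ y ζ) := by
  unfold ph dot
  fun_prop

lemma cont_ph' (α β γ : ℝ) {d : ℕ} (ζ : Pt d) : Continuous (fun y : Pt d => ph α β γ y ζ) := by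
  unfold ph dot
  fun_prop

section

variable {d : ℕ} {α β γ : ℝ}

lemma int_cos {f : Pt d → ℝ} (hf : Integrable f (sectionMeasure α β γ d)) (y : Pt d) :
    Integrable (fun ζ => f ζ * Real.cos (ph α β γ y ζ)) (sectionMeasure α β γ d) :=
  hf.mul_bdd (c := 1) (Real.continuous_cos.comp (cont_ph α β γ y)).aestronglyMeasurable
    (Eventually.of_forall fun ζ => by
      rw [Real.norm_eq_abs]; exact Real.abs_cos_le_one _)

lemma int_sin {f : Pt d → ℝ} (hf : Integrable f (sectionMeasure α β γ d)) (y : Pt d) :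
    Integrable (fun ζ => f ζ * Real.sin (ph α β γ y ζ)) (sectionMeasure α β γ d) :=
  hf.mul_bdd (c := 1) (Real.continuous_sin.comp (cont_ph α β γ y)).aestronglyMeasurable
    (Eventually.of_forall fun ζ => by
      rw [Real.norm_eq_abs]; exact Real.abs_sin_le_one _)

lemma cont_FA {f : Pt d → ℝ} (hf : Integrable f (sectionMeasure α β γ d)) :
    Continuous (FA α β γ f) := by
  refine continuous_of_dominated (bound := fun ζ => ‖f ζ‖) (fun y => (int_cos hf y).1) ?_ hf.norm ?_
  · intro y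
    refine Eventually.of_forall fun ζ => ?_
    rw [norm_mul]
    refine mul_le_of_le_one_right (norm_nonneg _) ?_
    rw [Real.norm_eq_abs]
    exact Real.abs_cos_le_one _
  · refine Eventually.of_forall fun ζ => ?_
    exact continuous_const.mul (Real.continuous_cos.comp (cont_ph' α β γ ζ))

lemma cont_FB {f : Pt d → ℝ} (hf : Integrable f (sectionMeasure α β γ d)) :
    Continuous (FB α β γ f) := by
  refine continuous_of_dominated (bound := fun ζ => ‖f ζ‖) (fun y => (int_sin hf y).1) ?_ hf.norm ?_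
  · intro y
    refine Eventually.of_forall fun ζ => ?_
    rw [norm_mul]
    refine mul_le_of_le_one_right (norm_nonneg _) ?_
    rw [Real.norm_eq_abs]
    exact Real.abs_sin_le_one _
  · refine Eventually.of_forall fun ζ => ?_
    exact continuous_const.mul (Real.continuous_sin.comp (cont_ph' α β γ ζ))

/-- the extension of `f + i g` -/
lemma ext_norm {f g : Pt d → ℝ} (hf : Integrable f (sectionMeasure α β γ d))
    (hg : Integrable g (sectionMeasure α β γ d)) (y : Pt d) :
    ‖extension α β γ (fun ζ => ((f ζ : ℝ) : ℂ) + Complex.I * ((g ζ : ℝ) : ℂ)) y‖ ^ 2 =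
      (FA α β γ f y + FB α β γ g y) ^ 2 + (FA α β γ g y - FB α β γ f y) ^ 2 := by
  have h1 : extension α β γ (fun ζ => ((f ζ : ℝ) : ℂ) + Complex.I * ((g ζ : ℝ) : ℂ)) y =
      Complex.exp (-(Complex.I * ((dot (cen α β γ) y : ℝ) : ℂ))) *
        (((FA α β γ f y + FB α β γ g y : ℝ) : ℂ) +
          Complex.I * ((FA α β γ g y - FB α β γ f y : ℝ) : ℂ)) := by
    have e1 : ∀ ζ : Pt d, (((f ζ : ℝ) : ℂ) + Complex.I * ((g ζ : ℝ) : ℂ)) *
        Complex.exp (-(Complex.I * ((dot ζ y : ℝ) : ℂ))) =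
        Complex.exp (-(Complex.I * ((dot (cen α β γ) y : ℝ) : ℂ))) *
          (((f ζ * Real.cos (ph α β γ y ζ) + g ζ * Real.sin (ph α β γ y ζ) : ℝ) : ℂ) +
            Complex.I * ((g ζ * Real.cos (ph α β γ y ζ) - f ζ * Real.sin (ph α β γ y ζ) : ℝ) : ℂ)) := by
      intro ζ
      have e2 : Complex.exp (-(Complex.I * ((dot ζ y : ℝ) : ℂ))) =
          Complex.exp (-(Complex.I * ((dot (cen α β γ) y : ℝ) : ℂ))) *
            Complex.exp (-((ph α β γ y ζ : ℝ) : ℂ) * Complex.I) := by
        rw [← Complex.exp_add]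
        congr 1
        rw [ph]
        push_cast
        ring
      rw [e2, Complex.exp_mul_I, Complex.cos_neg, Complex.sin_neg]
      push_cast
      linear_combination (-(Complex.exp (-(Complex.I * ((dot (cen α β γ) y : ℝ) : ℂ)))) *
        ((g ζ : ℝ) : ℂ) * Complex.sin ((ph α β γ y ζ : ℝ) : ℂ)) * Complex.I_sq
    unfold extension
    simp only [e1]
    rw [integral_const_mul]
    congr 1
    have i1 : Integrable (fun ζ => f ζ * Real.cos (ph α β γ y ζ) + g ζ * Real.sin (ph α β γ y ζ))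
        (sectionMeasure α β γ d) := (int_cos hf y).add (int_sin hg y)
    have i2 : Integrable (fun ζ => g ζ * Real.cos (ph α β γ y ζ) - f ζ * Real.sin (ph α β γ y ζ))
        (sectionMeasure α β γ d) := (int_cos hg y).sub (int_sin hf y)
    rw [integral_add i1.ofReal (i2.ofReal.const_mul _), integral_const_mul, integral_complex_ofReal,
      integral_complex_ofReal, integral_add (int_cos hf y) (int_sin hg y),
      integral_sub (int_cos hg y) (int_sin hf y)]
    rfl
  rw [h1, norm_mul]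
  have h2 : ‖Complex.exp (-(Complex.I * ((dot (cen α β γ) y : ℝ) : ℂ)))‖ = 1 := by
    rw [Complex.norm_exp]
    simp
  rw [h2, one_mul, ← Complex.normSq_eq_norm_sq, mul_comm Complex.I, Complex.normSq_add_mul_I]

/-- the reflection as an equivalence -/
def reflEquiv (α β γ : ℝ) (d : ℕ) : Pt d ≃ᵐ Pt d where
  toFun := refl α β γ
  invFun := refl α β γ
  left_inv := refl_refl α β γ
  right_inv := refl_refl α β γ
  measurable_toFun := measurable_refl α β γ d
  measurable_invFun := measurable_refl α β γ d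

lemma int_refl (h : |α| ≠ |β|) (F : Pt d → ℝ) :
    ∫ ζ, F (refl α β γ ζ) ∂(sectionMeasure α β γ d) = ∫ ζ, F ζ ∂(sectionMeasure α β γ d) := by
  have hm : MeasurePreserving (reflEquiv α β γ d) (sectionMeasure α β γ d)
    (sectionMeasure α β γ d) := mp_refl h γ d
  exact hm.integral_comp' F

lemma lint_refl (h : |α| ≠ |β|) (F : Pt d → ℝ≥0∞) :
    ∫⁻ ζ, F (refl α β γ ζ) ∂(sectionMeasure α β γ d) = ∫⁻ ζ, F ζ ∂(sectionMeasure α β γ d) := by
  have hm : MeasurePreserving (reflEquiv α β γ d) (sectionMeasure α β γ d)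
    (sectionMeasure α β γ d) := mp_refl h γ d
  exact hm.lintegral_comp_emb (reflEquiv α β γ d).measurableEmbedding F

lemma integrable_refl (h : |α| ≠ |β|) {f : Pt d → ℝ}
    (hf : Integrable f (sectionMeasure α β γ d)) :
    Integrable (fun ζ => f (refl α β γ ζ)) (sectionMeasure α β γ d) :=
  (mp_refl h γ d).integrable_comp_of_integrable hf

lemma FA_refl (h : |α| ≠ |β|) (f : Pt d → ℝ) (y : Pt d) :
    FA α β γ (fun ζ => f (refl α β γ ζ)) y = FA α β γ f y := by
  unfold FA
  rw [← int_refl h (fun ζ => f ζ * Real.cos (ph α β γ y ζ))]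
  congr 1
  ext ζ
  have : ph α β γ y (refl α β γ ζ) = -ph α β γ y ζ := dot_refl α β γ ζ y
  rw [this, Real.cos_neg]

lemma FB_refl (h : |α| ≠ |β|) (f : Pt d → ℝ) (y : Pt d) :
    FB α β γ (fun ζ => f (refl α β γ ζ)) y = -FB α β γ f y := by
  unfold FB
  rw [← int_refl h (fun ζ => f ζ * Real.sin (ph α β γ y ζ)), ← integral_neg]
  congr 1
  ext ζ
  have : ph α β γ y (refl α β γ ζ) = -ph α β γ y ζ := dot_refl α β γ ζ y
  rw [this, Real.sin_neg]
  ring

/-- even part -/
def ev (α β γ : ℝ) (f : Pt d → ℝ) (ζ : Pt d) : ℝ := (f ζ + f (refl α β γ ζ)) / 2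

/-- odd part -/
def od (α β γ : ℝ) (f : Pt d → ℝ) (ζ : Pt d) : ℝ := (f ζ - f (refl α β γ ζ)) / 2

lemma int_ev (h : |α| ≠ |β|) {f : Pt d → ℝ} (hf : Integrable f (sectionMeasure α β γ d)) :
    Integrable (ev α β γ f) (sectionMeasure α β γ d) :=
  (hf.add (integrable_refl h hf)).div_const 2

lemma int_od (h : |α| ≠ |β|) {f : Pt d → ℝ} (hf : Integrable f (sectionMeasure α β γ d)) :
    Integrable (od α β γ f) (sectionMeasure α β γ d) :=
  (hf.sub (integrable_refl h hf)).div_const 2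

lemma parts (h : |α| ≠ |β|) {f : Pt d → ℝ} (hf : Integrable f (sectionMeasure α β γ d))
    (y : Pt d) : FA α β γ (ev α β γ f) y = FA α β γ f y ∧ FB α β γ (ev α β γ f) y = 0 ∧
      FA α β γ (od α β γ f) y = 0 ∧ FB α β γ (od α β γ f) y = FB α β γ f y := by
  have hr := integrable_refl h hf
  have a1 : ∀ ε : ℝ, FA α β γ (fun ζ => (f ζ + ε * f (refl α β γ ζ)) / 2) y =
      (FA α β γ f y + ε * FA α β γ (fun ζ => f (refl α β γ ζ)) y) / 2 := by
    intro ε
    unfold FA
    rw [← integral_const_mul, ← integral_add (int_cos hf y) ((int_cos hr y).const_mul ε),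
      ← integral_div]
    congr 1
    ext ζ
    ring
  have a2 : ∀ ε : ℝ, FB α β γ (fun ζ => (f ζ + ε * f (refl α β γ ζ)) / 2) y =
      (FB α β γ f y + ε * FB α β γ (fun ζ => f (refl α β γ ζ)) y) / 2 := by
    intro ε
    unfold FB
    rw [← integral_const_mul, ← integral_add (int_sin hf y) ((int_sin hr y).const_mul ε),
      ← integral_div]
    congr 1
    ext ζ
    ring
  have e1 : ev α β γ f = fun ζ => (f ζ + 1 * f (refl α β γ ζ)) / 2 := by
    ext ζ
    simp [ev]
  have e2 : od α β γ f = fun ζ => (f ζ + (-1) * f (refl α β γ ζ)) / 2 := by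
    ext ζ
    simp only [od]
    ring
  rw [e1, e2, a1, a2, a1, a2, FA_refl h, FB_refl h]
  refine ⟨by ring, by ring, by ring, by ring⟩

end

end Pool.Agent.ExpPar
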