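import Pool.Agent.ExpPar.Parity

set_option autoImplicit false

/-!
# Real maximizers on central sections: the main argument
-/

noncomputable section

open MeasureTheory Set Filter
open scoped ENNReal RealInnerProductSpace Topology

namespace Pool.Agent.ExpPar

open Pool.Agent.ExpMax

section

variable {d : ℕ} {α β γ : ℝ}

lemma enorm_rpow {p : ℝ} (hp : 0 ≤ p) (z : ℂ) : ‖z‖ₑ ^ p = ENNReal.ofReal (‖z‖ ^ p) := by
  rw [← ofReal_norm, ENNReal.ofReal_rpow_of_nonneg (norm_nonneg _) hp]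

lemma enorm_two (z : ℂ) : ‖z‖ₑ ^ (2 : ℝ) = ENNReal.ofReal (‖z‖ ^ 2) := by
  rw [enorm_rpow (by norm_num)]
  norm_num

/-- the functions `f_e ± i f_o` -/
def gg (α β γ ε : ℝ) {d : ℕ} (f : Pt d → ℝ) (ζ : Pt d) : ℂ :=
  ((ev α β γ f ζ : ℝ) : ℂ) + Complex.I * ((ε * od α β γ f ζ : ℝ) : ℂ)

lemma gg_sq (ε : ℝ) (hε : ε ^ 2 = 1) (f : Pt d → ℝ) (ζ : Pt d) :
    ‖gg α β γ ε f ζ‖ ^ 2 = f ζ ^ 2 / 2 + f (refl α β γ ζ) ^ 2 / 2 := by
  rw [gg, ← Complex.normSq_eq_norm_sq, mul_comm Complex.I, Complex.normSq_add_mul_I, mul_pow, hε]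
  simp only [ev, od]
  ring

lemma gg_lint (h : |α| ≠ |β|) (ε : ℝ) (hε : ε ^ 2 = 1) {f : Pt d → ℝ}
    (hf : Integrable f (sectionMeasure α β γ d)) :
    ∫⁻ ζ, ‖gg α β γ ε f ζ‖ₑ ^ (2 : ℝ) ∂(sectionMeasure α β γ d) =
      ∫⁻ ζ, ‖((f ζ : ℝ) : ℂ)‖ₑ ^ (2 : ℝ) ∂(sectionMeasure α β γ d) := by
  have h1 : ∀ ζ, ‖gg α β γ ε f ζ‖ₑ ^ (2 : ℝ) =
      ENNReal.ofReal (f ζ ^ 2 / 2) + ENNReal.ofReal (f (refl α β γ ζ) ^ 2 / 2) := by
    intro ζ
    rw [enorm_two, gg_sq ε hε, ENNReal.ofReal_add (by positivity) (by positivity)]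
  have h2 : ∀ ζ, ‖((f ζ : ℝ) : ℂ)‖ₑ ^ (2 : ℝ) =
      ENNReal.ofReal (f ζ ^ 2 / 2) + ENNReal.ofReal (f ζ ^ 2 / 2) := by
    intro ζ
    rw [enorm_two, ← ENNReal.ofReal_add (by positivity) (by positivity), Complex.norm_real,
      Real.norm_eq_abs, sq_abs]
    congr 1
    ring
  simp only [h1, h2]
  have hm : AEMeasurable (fun ζ => ENNReal.ofReal (f ζ ^ 2 / 2)) (sectionMeasure α β γ d) :=
    ((hf.1.aemeasurable.pow_const 2).div_const 2).ennreal_ofReal
  rw [lintegral_add_left' hm, lintegral_add_left' hm,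
    lint_refl h (fun ζ => ENNReal.ofReal (f ζ ^ 2 / 2))]

lemma gg_ext (h : |α| ≠ |β|) (ε : ℝ) {f : Pt d → ℝ}
    (hf : Integrable f (sectionMeasure α β γ d)) (y : Pt d) :
    ‖extension α β γ (gg α β γ ε f) y‖ = |FA α β γ f y + ε * FB α β γ f y| := by
  obtain ⟨p1, p2, p3, p4⟩ := parts h hf y
  have h1 := ext_norm (int_ev h hf) ((int_od h hf).const_mul ε) y
  have h2 : FA α β γ (fun ζ => ε * od α β γ f ζ) y = ε * FA α β γ (od α β γ f) y := by
    unfold FA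
    rw [← integral_const_mul]
    congr 1
    ext ζ
    ring
  have h3 : FB α β γ (fun ζ => ε * od α β γ f ζ) y = ε * FB α β γ (od α β γ f) y := by
    unfold FB
    rw [← integral_const_mul]
    congr 1
    ext ζ
    ring
  rw [h2, h3, p1, p2, p3, p4] at h1
  have h4 : ‖extension α β γ (gg α β γ ε f) y‖ ^ 2 = (FA α β γ f y + ε * FB α β γ f y) ^ 2 := by
    rw [show (gg α β γ ε f : Pt d → ℂ) = fun ζ => ((ev α β γ f ζ : ℝ) : ℂ) +
      Complex.I * ((ε * od α β γ f ζ : ℝ) : ℂ) from rfl, h1]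
    ring
  rw [← abs_of_nonneg (norm_nonneg (extension α β γ (gg α β γ ε f) y))]
  exact (sq_eq_sq_iff_abs_eq_abs _ _).1 h4

lemma gg_eq (ε : ℝ) (f : Pt d → ℝ) : gg α β γ ε f = fun ζ =>
    ((1 + Complex.I * (ε : ℂ)) / 2) * ((f ζ : ℝ) : ℂ) +
      ((1 - Complex.I * (ε : ℂ)) / 2) * ((f (refl α β γ ζ) : ℝ) : ℂ) := by
  ext ζ
  simp only [gg, ev, od]
  push_cast
  ring

lemma memLp_gg (h : |α| ≠ |β|) (ε : ℝ) {f : Pt d → ℝ}
    (hf : MemLp f 2 (sectionMeasure α β γ d)) :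
    MemLp (gg α β γ ε f) 2 (sectionMeasure α β γ d) := by
  have h1 : MemLp (fun ζ => ((f ζ : ℝ) : ℂ)) 2 (sectionMeasure α β γ d) := hf.ofReal
  have h2 : MemLp (fun ζ => ((f (refl α β γ ζ) : ℝ) : ℂ)) 2 (sectionMeasure α β γ d) :=
    (hf.comp_measurePreserving (mp_refl h γ d)).ofReal
  rw [gg_eq]
  exact (h1.const_mul ((1 + Complex.I * (ε : ℂ)) / 2)).add
    (h2.const_mul ((1 - Complex.I * (ε : ℂ)) / 2))

lemma int_gg (h : |α| ≠ |β|) (ε : ℝ) {f : Pt d → ℝ}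
    (hf : Integrable f (sectionMeasure α β γ d)) :
    Integrable (gg α β γ ε f) (sectionMeasure α β γ d) := by
  have h1 : Integrable (fun ζ => ((f ζ : ℝ) : ℂ)) (sectionMeasure α β γ d) := hf.ofReal
  have h2 : Integrable (fun ζ => ((f (refl α β γ ζ) : ℝ) : ℂ)) (sectionMeasure α β γ d) :=
    (integrable_refl h hf).ofReal
  rw [gg_eq]
  exact (h1.const_mul ((1 + Complex.I * (ε : ℂ)) / 2)).add
    (h2.const_mul ((1 - Complex.I * (ε : ℂ)) / 2))

/-- a real maximizer: the extensions of the even part and of the odd part have disjoint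
supports -/
theorem parity (h : |α| ≠ |β|) {p : ℝ} (hp : 2 < p) {f : Pt d → ℝ}
    (hf : Integrable f (sectionMeasure α β γ d))
    (hm : IsMaximizer α β γ p (fun ζ => ((f ζ : ℝ) : ℂ))) :
    ∀ᵐ y ∂(planeMeasure α β γ d), FA α β γ f y * FB α β γ f y = 0 := by
  obtain ⟨hL2, hne, hM, hq⟩ := hm
  set σ := sectionMeasure α β γ d with hσ
  set M := bestConst α β γ d p with hMdef
  set N : ℝ≥0∞ := ∫⁻ ζ, ‖((f ζ : ℝ) : ℂ)‖ₑ ^ (2 : ℝ) ∂σ with hN
  have hp0 : 0 < p := by linarith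
  have hNtop : N ≠ ∞ := by
    have h1 := hL2.2
    rw [eLpNorm_lt_top_iff_lintegral_rpow_enorm_lt_top (by norm_num) (by norm_num)] at h1
    have h2 : (2 : ℝ≥0∞).toReal = 2 := by norm_num
    rw [h2] at h1
    exact h1.ne
  have hN0 : N ≠ 0 := by
    intro h0
    apply hne
    rw [hN, lintegral_eq_zero_iff' (hL2.1.enorm.pow_const _)] at h0
    filter_upwards [h0] with ζ hζ
    simpa using hζ
  set D : ℝ≥0∞ := N ^ (p / 2) with hD
  have hD0 : D ≠ 0 := by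
    rw [hD, Ne, ENNReal.rpow_eq_zero_iff]
    push Not
    exact ⟨fun h0 => absurd h0 hN0, fun h0 => absurd h0 hNtop⟩
  have hDtop : D ≠ ∞ := ENNReal.rpow_ne_top_of_nonneg (by positivity) hNtop
  have hA : ∫⁻ y, ‖extension α β γ (fun ζ => ((f ζ : ℝ) : ℂ)) y‖ₑ ^ p ∂(planeMeasure α β γ d) =
      M * D := by
    have h1 := hq
    unfold quotient at h1
    rw [← hσ, ← hN, ← hD] at h1
    rw [← h1, ENNReal.div_mul_cancel hD0 hDtop]
  have hreal : MemLp f 2 σ := by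
    have := hL2.re
    simpa using this
  have key : ∀ ε : ℝ, ε ^ 2 = 1 →
      ∫⁻ y, ENNReal.ofReal (|FA α β γ f y + ε * FB α β γ f y| ^ p) ∂(planeMeasure α β γ d) ≤
        M * D := by
    intro ε hε
    have hgint : Integrable (gg α β γ ε f) σ := int_gg h ε hf
    have hgL : MemLp (gg α β γ ε f) 2 σ := memLp_gg h ε hreal
    have hgN : ∫⁻ ζ, ‖gg α β γ ε f ζ‖ₑ ^ (2 : ℝ) ∂σ = N := gg_lint h ε hε hf
    have hg0 : ¬ gg α β γ ε f =ᵐ[σ] 0 := by
      intro h0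
      apply hN0
      rw [← hgN]
      have h1 : (fun ζ => ‖gg α β γ ε f ζ‖ₑ ^ (2 : ℝ)) =ᵐ[σ] 0 := by
        filter_upwards [h0] with ζ hζ
        rw [hζ]
        simp
      rw [lintegral_congr_ae h1]
      simp
    have h1 : quotient α β γ p (gg α β γ ε f) ≤ M :=
      le_iSup₂_of_le (gg α β γ ε f) hgL (le_iSup₂_of_le hgint hg0 le_rfl)
    unfold quotient at h1
    rw [← hσ, hgN, ← hD, ENNReal.div_le_iff hD0 hDtop] at h1
    refine le_trans (le_of_eq ?_) h1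
    congr 1
    ext y
    rw [enorm_rpow hp0.le, gg_ext h ε hf]
  have hfn : ∀ y, ‖extension α β γ (fun ζ => ((f ζ : ℝ) : ℂ)) y‖ₑ ^ p =
      ENNReal.ofReal ((FA α β γ f y ^ 2 + FB α β γ f y ^ 2) ^ (p / 2)) := by
    intro y
    have h1 := ext_norm (g := fun _ => 0) hf (integrable_zero _ _ _) y
    have h2 : FA α β γ (fun _ => 0 : Pt d → ℝ) y = 0 := by simp [FA]
    have h3 : FB α β γ (fun _ => 0 : Pt d → ℝ) y = 0 := by simp [FB]
    rw [h2, h3] at h1
    have h4 : (fun ζ : Pt d => ((f ζ : ℝ) : ℂ) + Complex.I * (((0 : ℝ)) : ℂ)) =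
        fun ζ => ((f ζ : ℝ) : ℂ) := by
      ext ζ
      simp
    rw [h4] at h1
    rw [enorm_rpow hp0.le]
    congr 1
    have h5 : FA α β γ f y ^ 2 + FB α β γ f y ^ 2 =
        ‖extension α β γ (fun ζ => ((f ζ : ℝ) : ℂ)) y‖ ^ 2 := by
      rw [h1]
      ring
    rw [h5, ← Real.rpow_natCast _ 2, ← Real.rpow_mul (norm_nonneg _)]
    congr 1
    push_cast
    ring
  simp only [hfn] at hA
  set A := FA α β γ f with hAdef
  set B := FB α β γ f with hBdef
  have hcA : Continuous A := cont_FA hf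
  have hcB : Continuous B := cont_FB hf
  have k1 := key 1 (by norm_num)
  have k2 := key (-1) (by norm_num)
  simp only [one_mul, neg_mul] at k1 k2
  have hMD : M * D ≠ ∞ := ENNReal.mul_ne_top hM.ne hDtop
  have hF : ∫⁻ y, ENNReal.ofReal (2 * (A y ^ 2 + B y ^ 2) ^ (p / 2)) ∂(planeMeasure α β γ d) =
      2 * (M * D) := by
    rw [← hA, ← lintegral_const_mul' _ _ (by norm_num)]
    congr 1
    ext y
    rw [ENNReal.ofReal_mul (by norm_num)]
    norm_num
  have hmeas1 : Measurable (fun y => ENNReal.ofReal (|A y + B y| ^ p)) := by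
    have : Measurable (fun y => |A y + B y|) := (hcA.add hcB).abs.measurable
    exact (this.pow_const p).ennreal_ofReal
  have hmeas2 : Measurable (fun y => ENNReal.ofReal (|A y - B y| ^ p)) := by
    have : Measurable (fun y => |A y - B y|) := (hcA.sub hcB).abs.measurable
    exact (this.pow_const p).ennreal_ofReal
  have hG : ∫⁻ y, (ENNReal.ofReal (|A y + B y| ^ p) + ENNReal.ofReal (|A y - B y| ^ p))
      ∂(planeMeasure α β γ d) ≤ 2 * (M * D) := by
    rw [lintegral_add_left hmeas1, two_mul]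
    exact add_le_add k1 k2
  have hFG : ∀ y, ENNReal.ofReal (2 * (A y ^ 2 + B y ^ 2) ^ (p / 2)) ≤
      ENNReal.ofReal (|A y + B y| ^ p) + ENNReal.ofReal (|A y - B y| ^ p) := by
    intro y
    rw [← ENNReal.ofReal_add (by positivity) (by positivity)]
    exact ENNReal.ofReal_le_ofReal (convex_ineq hp).1
  have hae := ae_eq_of_ae_le_of_lintegral_le (Eventually.of_forall hFG)
    (by rw [hF]; exact ENNReal.mul_ne_top (by norm_num) hMD) (hmeas1.add hmeas2).aemeasurable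
    (by rw [hF]; exact hG)
  filter_upwards [hae] with y hy
  by_contra hab
  have h1 := (convex_ineq hp (a := A y) (b := B y)).2 hab
  rw [← ENNReal.ofReal_add (by positivity) (by positivity)] at hy
  have h2 := (ENNReal.ofReal_eq_ofReal_iff (by positivity) (by positivity)).1 hy
  exact absurd h2 h1.ne

end

end Pool.Agent.ExpPar
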