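import Pool.Agent.ExpMax.BLOW
import Pool.Agent.ExpMax.INV
import Pool.Agent.ExpMax.ELL

set_option autoImplicit false

/-!
# The point reflection of a central section
-/

noncomputable section

open MeasureTheory Set Filter
open scoped ENNReal RealInnerProductSpace Topology

namespace Pool.Agent.ExpPar

open Pool.Agent.ExpMax

/-- a constant -/
def kap (α β γ : ℝ) : ℝ := -γ / (α ^ 2 - β ^ 2)

/-- the centre of the section -/
def cen (α β γ : ℝ) {d : ℕ} : Pt d := (kap α β γ * α, -(kap α β γ * β), 0)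

/-- the reflection in the centre -/
def refl (α β γ : ℝ) {d : ℕ} (ζ : Pt d) : Pt d :=
  (2 * (kap α β γ * α) - ζ.1, -(2 * (kap α β γ * β)) - ζ.2.1, -ζ.2.2)

/-- the coordinate of the centre -/
def s0 (α β γ : ℝ) : ℝ := -(2 * γ * α * β) / (√(α ^ 2 + β ^ 2) * (β ^ 2 - α ^ 2))

lemma sq_ne {α β : ℝ} (h : |α| ≠ |β|) : α ^ 2 - β ^ 2 ≠ 0 := by
  intro h1
  exact h ((sq_eq_sq_iff_abs_eq_abs _ _).1 (by linarith))

lemma ne_zero {α β : ℝ} (h : |α| ≠ |β|) : (α, β) ≠ (0, 0) := by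
  intro h1
  rw [Prod.mk.injEq] at h1
  exact h (by rw [h1.1, h1.2])

lemma refl_planePt {α β : ℝ} (h : |α| ≠ |β|) (γ : ℝ) {d : ℕ} (s : ℝ) (ξ : Ed d) :
    refl α β γ (planePt α β γ s ξ) = planePt α β γ (2 * s0 α β γ - s) (-ξ) := by
  have h1 := sq_ne h
  have h2 : β ^ 2 - α ^ 2 ≠ 0 := by
    intro h3; apply h1; linarith
  have hM := BLOW_pos (ne_zero h)
  have hN : √(α ^ 2 + β ^ 2) ≠ 0 := (Real.sqrt_pos.2 hM).ne'
  have hNN : √(α ^ 2 + β ^ 2) ^ 2 = α ^ 2 + β ^ 2 := Real.sq_sqrt hM.le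
  have hk : kap α β γ = γ / (β ^ 2 - α ^ 2) := by
    unfold kap
    rw [show β ^ 2 - α ^ 2 = -(α ^ 2 - β ^ 2) by ring, div_neg, neg_div]
  simp only [refl, planePt, Prod.mk.injEq, and_true]
  rw [s0, hk]
  set N := √(α ^ 2 + β ^ 2) with hNdef
  set D := β ^ 2 - α ^ 2 with hD
  have hα : α ^ 2 = N ^ 2 - β ^ 2 := by linarith
  rw [← hNN]
  constructor
  · field_simp
    rw [hD, hα]
    ring
  · have hβ : β ^ 2 = N ^ 2 - α ^ 2 := by linarith
    field_simp
    rw [hD, hβ]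
    ring

lemma Q_refl {α β : ℝ} (h : |α| ≠ |β|) (γ s : ℝ) :
    Q α β γ (2 * s0 α β γ - s) = Q α β γ s := by
  have h2 : β ^ 2 - α ^ 2 ≠ 0 := by
    intro h3; apply sq_ne h; linarith
  have hM := BLOW_pos (ne_zero h)
  have hN : √(α ^ 2 + β ^ 2) ≠ 0 := (Real.sqrt_pos.2 hM).ne'
  have hNN : √(α ^ 2 + β ^ 2) ^ 2 = α ^ 2 + β ^ 2 := Real.sq_sqrt hM.le
  rw [BLOW_Qeq (ne_zero h), BLOW_Qeq (ne_zero h), s0]
  set N := √(α ^ 2 + β ^ 2) with hNdef
  rw [← hNN]
  field_simp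
  ring

/-- reflection in the parameters -/
def T (α β γ : ℝ) {d : ℕ} (x : ℝ × Metric.sphere (0 : Ed d) 1) :
    ℝ × Metric.sphere (0 : Ed d) 1 :=
  (2 * s0 α β γ - x.1, rot (LinearIsometryEquiv.neg ℝ) x.2)

lemma conePt_T {α β : ℝ} (h : |α| ≠ |β|) (γ : ℝ) {d : ℕ}
    (x : ℝ × Metric.sphere (0 : Ed d) 1) :
    conePt α β γ (T α β γ x).1 (T α β γ x).2 = refl α β γ (conePt α β γ x.1 x.2) := by
  rw [conePt, conePt, refl_planePt h]
  simp only [T, Q_refl h, rot]
  simp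

lemma mp_s {α β : ℝ} (h : |α| ≠ |β|) (γ e : ℝ) :
    MeasurePreserving (fun s : ℝ => 2 * s0 α β γ - s)
      ((volume.restrict {s : ℝ | 0 < Q α β γ s}).withDensity
        (fun s => ENNReal.ofReal (Q α β γ s ^ e)))
      ((volume.restrict {s : ℝ | 0 < Q α β γ s}).withDensity
        (fun s => ENNReal.ofReal (Q α β γ s ^ e))) := by
  have hmeas : Measurable (fun s : ℝ => 2 * s0 α β γ - s) := by fun_prop
  have hA : MeasurableSet {s : ℝ | 0 < Q α β γ s} :=
    measurableSet_lt measurable_const (BLOW_contQ α β γ).measurable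
  have hq : Measurable (fun s => ENNReal.ofReal (Q α β γ s ^ e)) :=
    ((BLOW_contQ α β γ).measurable.pow_const e).ennreal_ofReal
  have h1 : MeasurePreserving (fun s : ℝ => 2 * s0 α β γ - s) volume volume :=
    Measure.measurePreserving_sub_left volume _
  have h2 := h1.restrict_preimage hA
  have h3 : (fun s : ℝ => 2 * s0 α β γ - s) ⁻¹' {s : ℝ | 0 < Q α β γ s} =
      {s : ℝ | 0 < Q α β γ s} := by
    ext s
    simp only [mem_preimage, mem_ofPred_eq, Q_refl h]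
  rw [h3] at h2
  refine ⟨hmeas, ?_⟩
  have h4 := ELL_map_withDensity (volume.restrict {s : ℝ | 0 < Q α β γ s})
    (fun s : ℝ => 2 * s0 α β γ - s) hmeas _ hq
  rw [h2.map_eq] at h4
  simp only [Q_refl h] at h4
  exact h4.symm

lemma measurable_refl (α β γ : ℝ) (d : ℕ) : Measurable (refl α β γ : Pt d → Pt d) := by
  unfold refl
  fun_prop

/-- the reflection preserves `σ` -/
lemma mp_refl {α β : ℝ} (h : |α| ≠ |β|) (γ : ℝ) (d : ℕ) :
    MeasurePreserving (refl α β γ : Pt d → Pt d) (sectionMeasure α β γ d)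
      (sectionMeasure α β γ d) := by
  unfold sectionMeasure
  apply MeasurePreserving.smul_measure
  have hT : MeasurePreserving (T α β γ : ℝ × Metric.sphere (0 : Ed d) 1 → _)
      (((volume.restrict {s : ℝ | 0 < Q α β γ s}).withDensity
        (fun s => ENNReal.ofReal (Q α β γ s ^ (((d : ℝ) - 2) / 2)))).prod
        (volume : Measure (Ed d)).toSphere)
      (((volume.restrict {s : ℝ | 0 < Q α β γ s}).withDensity
        (fun s => ENNReal.ofReal (Q α β γ s ^ (((d : ℝ) - 2) / 2)))).prod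
        (volume : Measure (Ed d)).toSphere) :=
    (mp_s h γ _).prod (INV_toSphere (LinearIsometryEquiv.neg ℝ))
  refine ⟨measurable_refl α β γ d, ?_⟩
  have hc := (BLOW_contCone α β γ d).measurable
  rw [Measure.map_map (measurable_refl α β γ d) hc]
  have h5 : (refl α β γ ∘ fun x : ℝ × Metric.sphere (0 : Ed d) 1 => conePt α β γ x.1 x.2) =
      (fun x : ℝ × Metric.sphere (0 : Ed d) 1 => conePt α β γ x.1 x.2) ∘ T α β γ := by
    ext1 x
    exact (conePt_T h γ x).symm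
  rw [h5, ← Measure.map_map hc hT.measurable, hT.map_eq]

lemma refl_refl (α β γ : ℝ) {d : ℕ} (ζ : Pt d) : refl α β γ (refl α β γ ζ) = ζ := by
  simp [refl]

lemma dot_refl (α β γ : ℝ) {d : ℕ} (ζ y : Pt d) :
    dot (refl α β γ ζ) y - dot (cen α β γ) y = -(dot ζ y - dot (cen α β γ) y) := by
  simp only [dot, refl, cen, inner_neg_left, inner_zero_left]
  ring

end Pool.Agent.ExpPar
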